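import Pool.Agent.VOP.FIN3
import Pool.Agent.VOP.QRS
import Pool.Agent.VSY.KOS

/-!
# MP_deb8da_ag: the Ottaviani-Paoletti conjecture and the lower end of the vanishing range
-/

namespace Pool.Agent.Results.MP_deb8da_ag.OttavianiPaoletti

open Pool.Agent.VSY Pool.Agent.VOP

/-- `K_{p,q}(n,b;d) = 0` for all `n`, if `q ≥ 2`, `d ≥ b + q + 1`,
`p < L = C(d+q,q) - C(d-b-1,q) - q` and
`p ≤ (d-1) q (q+1) / 2 + (q+1) (q+b) - 6 + max (q-3) 0 + e`, with one exception; `e = 0` for
`d ≤ 6`, `e = d - 6` for `d = 7, 8, 9`, `e = d - 5` for `d = 10, 11`,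
`e = min (3 d - 27) (2 d - 11)` for `d ≥ 12`.
For `q = 2` this is the whole range `p < L` if `b = 0`, or `b = 1` and `d ∉ {6, 7, 8, 9}`, or
`b = 2` and `d = 5` or `d ≥ 16`. -/
theorem general (K : Type) [Field K] [CharZero K] (n q b d p e : ℕ) (hq : 2 ≤ q)
    (hd : b + q + 1 ≤ d)
    (hL : (p : ℤ) < ((d + q).choose q : ℤ) - ((d - b - 1).choose q : ℤ) - q)
    (he : e = 0 ∨ (7 ≤ d ∧ e + 6 ≤ d) ∨ (10 ≤ d ∧ e + 5 ≤ d) ∨
      (12 ≤ d ∧ e + 27 ≤ 3 * d ∧ e + 11 ≤ 2 * d))
    (hp : 2 * p + 12 ≤ q * (q + 1) * (d - 1) + 2 * ((q + 1) * (q + b)) + 2 * (q - 3) + 2 * e)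
    (hne : ¬ (d = 5 ∧ q = 3 ∧ b = 0 ∧ p = 30)) :
    KExact K n d p (q * d + b) := by
  have hE : e ≤ VOP.EE d := by
    unfold VOP.EE
    split_ifs <;> omega
  refine KOS_thm K n b d p q (off K n b d p q (by omega) ?_)
  rcases Nat.lt_or_ge d 7 with hd7 | hd7
  · have he0 : e = 0 := by omega
    subst he0
    obtain ⟨-, h2, h3, h4⟩ := FINN_thm tr tg red K d (fun v p hp => van_two K v d p hp)
    rcases Nat.lt_or_ge q 3 with hq3 | hq3
    · obtain rfl : q = 2 := by omega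
      exact h3 (n + 1) 2 b p le_rfl hd hL (by omega) (by omega)
    · by_cases h5 : d = 5 ∧ q = 3 ∧ b = 0
      · obtain ⟨rfl, rfl, rfl⟩ := h5
        refine h4 (n + 1) 3 0 p le_rfl (by omega) ?_
        have : p ≠ 30 := fun h => hne ⟨rfl, rfl, rfl, h⟩
        omega
      · exact h2 (n + 1) q b p hq3 hd h5 (by omega)
  · obtain ⟨h1, h2⟩ := FIN3.big K d hd7
    rcases Nat.lt_or_ge q 3 with hq3 | hq3
    · obtain rfl : q = 2 := by omega
      rcases Nat.eq_zero_or_pos b with hb | hb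
      · subst hb
        have hl := VSY.CH.lend_eq (b := 0) (d := d) (by omega)
        have hd' : (7 : ℤ) ≤ d := by exact_mod_cast hd7
        have hL' : (p : ℤ) < Lend 2 0 d := hL
        have h3 : (p : ℤ) + 3 ≤ 3 * d := by
          push_cast at hl
          nlinarith
        have := van_two K (n + 1) d p (by exact_mod_cast h3)
        simpa using this
      · exact h1 (n + 1) b p hb (by omega) hL (by omega)
    · exact h2 (n + 1) q b p hq3 hd (by omega)


/-- The weights `q ≥ 3`, `b = 0`, `p ≤ 3 d - 3`. -/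
theorem higher (K : Type) [Field K] [CharZero K] (n q d p : ℕ) (hd : 3 ≤ d) (hq : 3 ≤ q)
    (hp : p + 3 ≤ 3 * d) : KExact K n d p (q * d) := by
  have h0 : Van K (n + 1) d p (q * d + 0) := by
    have hd' : (3 : ℝ) ≤ d := by exact_mod_cast hd
    have hq' : (3 : ℝ) ≤ q := by exact_mod_cast hq
    have hp' : (p : ℝ) + 3 ≤ 3 * d := by exact_mod_cast hp
    have key : ∀ y : ℝ, 1 ≤ y → y * (1 + Real.log y) ≤ d → 3 * (d : ℝ) - 3 < y * (d + 3) →
        Van K (n + 1) d p (q * d + 0) := by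
      intro y hy hyd hyp
      refine QRS.one K (n + 1) q 0 d p (by omega) (by omega) y hy hyd ?_
      have h1 : (d : ℝ) + 3 ≤ ((q : ℝ) - 2) * d + (0 : ℕ) + 3 := by
        push_cast
        nlinarith
      have h2 := mul_le_mul_of_nonneg_left h1 (by linarith : (0 : ℝ) ≤ y)
      linarith
    have l32 : Real.log (3 / 2) ≤ 1 / 2 := by
      have := Real.log_le_sub_one_of_pos (by norm_num : (0 : ℝ) < 3 / 2)
      linarith
    have l2 : Real.log 2 ≤ 7 / 10 := by
      have := Real.log_two_lt_d9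
      linarith
    have l3 : Real.log 3 ≤ 6 / 5 := by
      have h3 : Real.log 3 = Real.log 2 + Real.log (3 / 2) := by
        rw [← Real.log_mul (by norm_num) (by norm_num)]
        norm_num
      linarith
    rcases Nat.lt_or_ge d 5 with h5 | h5
    · have h5' : (d : ℝ) ≤ 4 := by exact_mod_cast Nat.lt_succ_iff.1 h5
      refine key (3 / 2) (by norm_num) ?_ ?_
      · linarith
      · linarith
    · have h5' : (5 : ℝ) ≤ d := by exact_mod_cast h5
      rcases Nat.lt_or_ge d 7 with h7 | h7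
      · have h7' : (d : ℝ) ≤ 6 := by exact_mod_cast Nat.lt_succ_iff.1 h7
        refine key 2 (by norm_num) ?_ ?_
        · linarith
        · linarith
      · have h7' : (7 : ℝ) ≤ d := by exact_mod_cast h7
        refine key 3 (by norm_num) ?_ ?_
        · linarith
        · linarith
  exact KOS_thm K n 0 d p q (off K n 0 d p q (by omega) h0)

/-- (1) The Ottaviani-Paoletti conjecture (vanishing half, characteristic `0`): the Veronese
embedding `v_d (P ^ n)` has property `N_{3 d - 3}` for all `n` and all `d ≥ 3`, that is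
`K_{p,q}(n,0;d) = 0` for all `q ≥ 2` and `p ≤ 3 d - 3`.
(2) The lower end of the range for all `n`, `q ≥ 2`, `b`: see `general`. -/
theorem result (K : Type) [Field K] [CharZero K] :
    (∀ n d q p : ℕ, 3 ≤ d → 2 ≤ q → p ≤ 3 * d - 3 → KExact K n d p (q * d)) ∧
    (∀ n q b d p e : ℕ, 2 ≤ q → b + q + 1 ≤ d →
      (p : ℤ) < ((d + q).choose q : ℤ) - ((d - b - 1).choose q : ℤ) - q →
      (e = 0 ∨ (7 ≤ d ∧ e + 6 ≤ d) ∨ (10 ≤ d ∧ e + 5 ≤ d) ∨
        (12 ≤ d ∧ e + 27 ≤ 3 * d ∧ e + 11 ≤ 2 * d)) →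
      2 * p + 12 ≤ q * (q + 1) * (d - 1) + 2 * ((q + 1) * (q + b)) + 2 * (q - 3) + 2 * e →
      ¬ (d = 5 ∧ q = 3 ∧ b = 0 ∧ p = 30) →
      KExact K n d p (q * d + b)) := by
  refine ⟨fun n d q p hd hq hp => ?_, fun n q b d p e hq hd hL he hp hne =>
    general K n q b d p e hq hd hL he hp hne⟩
  rcases Nat.lt_or_ge q 3 with h3 | h3
  · obtain rfl : q = 2 := by omega
    have hl := VSY.CH.lend_eq (b := 0) (d := d) (by omega)
    have hL : (p : ℤ) < ((d + 2).choose 2 : ℤ) - ((d - 0 - 1).choose 2 : ℤ) - (2 : ℕ) := by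
      change (p : ℤ) < Lend 2 0 d
      push_cast at hl
      have h5 : (p : ℤ) ≤ 3 * d - 3 := by omega
      nlinarith
    have := general K n 2 0 d p 0 le_rfl (by omega) hL (Or.inl rfl) (by omega) (by omega)
    simpa using this
  · exact higher K n q d p hd h3 (by omega)

end Pool.Agent.Results.MP_deb8da_ag.OttavianiPaoletti
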