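import Pool.Agent.VOP.QRS
import Pool.Agent.VSY.KOS

/-!
# MP_deb8da_ag: vanishing ranges of order `(q d)^2 / log (q d)` for all weights `q ≥ 2`
-/

namespace Pool.Agent.Results.MP_deb8da_ag.QuadraticRange

open Pool.Agent.VSY Pool.Agent.VOP

/-- `K_{p,q}(n,b;d) = 0` for all `n`, `b`, `q ≥ 2`, `d ≥ 2` in each of the following cases:
* `p < y ((q - 2) d + b + 3)` for some real `y ≥ 1` with `y (1 + log y) ≤ d`
  (for example `y = d / (1 + log d)`);
* `q ≥ 3` and `p < b + q + (q - 1) d (2 (b + q + 1) + (q - 2) (d - 1)) / (2 (2 + log y))` for some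
  real `y ≥ 1` with `(q - 2) d + 1 + log y ≤ y`. -/
theorem result (K : Type) [Field K] [CharZero K] (n q b d p : ℕ) (hq : 2 ≤ q) (hd : 2 ≤ d)
    (h : (∃ y : ℝ, 1 ≤ y ∧ y * (1 + Real.log y) ≤ d ∧
        (p : ℝ) < y * (((q : ℝ) - 2) * d + b + 3)) ∨
      (3 ≤ q ∧ ∃ y : ℝ, 1 ≤ y ∧ ((q : ℝ) - 2) * d + 1 + Real.log y ≤ y ∧
        (p : ℝ) < b + q + (q - 1) * d * (2 * (b + q + 1) + (q - 2) * (d - 1)) /
          (2 * (2 + Real.log y)))) :
    KExact K n d p (q * d + b) := by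
  refine KOS_thm K n b d p q (off K n b d p q (by omega) ?_)
  rcases h with ⟨y, hy, hyd, hp⟩ | ⟨hq3, y, hy, hyd, hp⟩
  · exact QRS.one K (n + 1) q b d p hq hd y hy hyd hp
  · exact QRS.several K (n + 1) q b d p hq3 hd y hy hyd hp

end Pool.Agent.Results.MP_deb8da_ag.QuadraticRange
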