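import Pool.Agent.VPT.V4F

/-!
# MP_deb8da_ag: the non-vanishing ranges for `n ≤ 3` and all twists `b`
-/

namespace Pool.Agent.Results.MP_deb8da_ag.ThreefoldTables

open Pool.Agent.VSY Pool.Agent.VOP

/-- The loss `ℓ(b,d)`. It is `0` if `b ≤ 2`, if `d ≤ b + 4` and if `16 d > b² + 28 b + 60`; the
quotients are rounded down. -/
def ell (b d : ℤ) : ℤ :=
  if d ≤ b + 4 then 0
  else if 2 * d ≤ 3 * b + 12 then max 0 (((d - b - 2) * (2 * b + 6 - d) - b - 5) / 4)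
  else max 0 ((b ^ 2 + 28 * b + 76) / 16 - d)

/-- `K_{p,q}(n,b;d) = 0` for `n ≤ 3`, all `b`, `q ≤ n`, `d ≥ b + q + 1` and all `p` outside
`[L - ε, U + ε']`, `L = C(d+q,q) - C(d-b-1,q) - q`,
`U = C(d+n,n) - C(d+n-q,n-q) + C(b+n,b+q) - q - 1`, where `ε = 0` except for `n = 3`, `q = 2`,
`ε' = 0` except for `n = 3`, `q = 1`. -/
theorem result (K : Type) [Field K] [CharZero K] (n q b d p : ℕ) (hn : n ≤ 3) (hq : q ≤ n)
    (hd : b + q + 1 ≤ d)
    (h : (p : ℤ) < ((d + q).choose q : ℤ) - ((d - b - 1).choose q : ℤ) - q -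
        (if n = 3 ∧ q = 2 then ell b d else 0) ∨
      ((d + n).choose n : ℤ) - ((d + n - q).choose (n - q) : ℤ) + ((b + n).choose (b + q) : ℤ) -
        q - 1 + (if n = 3 ∧ q = 1 then ell (d - 4 - b) d else 0) < p) :
    KExact K n d p (q * d + b) :=
  V4F.ends K hn hq hd h

end Pool.Agent.Results.MP_deb8da_ag.ThreefoldTables
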