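import Pool.Agent.VOP.QRU
import Pool.Agent.VSY.KOS

/-!
# MP_deb8da_ag: the lower end in the weight `q = 2`, all `n`, `b`
-/

namespace Pool.Agent.Results.MP_deb8da_ag.WeightTwo

open Pool.Agent.VSY Pool.Agent.VOP

/-- `K_{p,2}(n,b;d) = 0` for all `n`, `b`, `d ≥ b + 3` and all
`p < L = C(d+2,2) - C(d-b-1,2) - 2` with
`p ≤ w (d + (b + 2) / 2) - λ w² / 2 - (b + 2)² / (8 λ)` for some `0 ≤ w ≤ b + 4`;
here `λ ≥ 2` and `1 + log d ≤ λ + log λ`. -/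
theorem result (K : Type) [Field K] [CharZero K] (n b d p : ℕ) (hd : b + 3 ≤ d) (lam w : ℝ)
    (hl : 2 ≤ lam) (hlog : 1 + Real.log d ≤ lam + Real.log lam) (hw0 : 0 ≤ w)
    (hw : w ≤ (b : ℝ) + 4)
    (hp : (p : ℝ) ≤ w * ((d : ℝ) + (b + 2) / 2) - lam * w ^ 2 / 2 - ((b : ℝ) + 2) ^ 2 / (8 * lam))
    (hL : (p : ℤ) < ((d + 2).choose 2 : ℤ) - ((d - b - 1).choose 2 : ℤ) - 2) :
    KExact K n d p (2 * d + b) :=
  KOS_thm K n b d p 2 (off K n b d p 2 (by omega) (QRU.row K (n + 1) b d p hd lam w hl hlog hw0 hw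
    hp hL))

end Pool.Agent.Results.MP_deb8da_ag.WeightTwo
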